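import Mathlib

set_option autoImplicit false

open Filter Topology

namespace Pool.Agent.H47

/-- The Cantor set. -/
abbrev K : Type := ℕ → Bool

/-- Real continuous functions on the Cantor set. -/
abbrev X : Type := C(ℕ → Bool, ℝ)

/-- prepend a digit -/
def cn (b : Bool) : C(K, K) :=
  ⟨fun x n => Nat.casesOn n b x, by
    refine continuous_pi fun n => ?_
    cases n with
    | zero => exact continuous_const
    | succ n => exact continuous_apply n⟩

/-- drop the first digit -/
def tl : C(K, K) := ⟨fun x n => x (n + 1), continuous_pi fun n => continuous_apply (n + 1)⟩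

@[simp] lemma cn_zero (b : Bool) (x : K) : cn b x 0 = b := rfl
@[simp] lemma cn_succ (b : Bool) (x : K) (n : ℕ) : cn b x (n + 1) = x n := rfl
@[simp] lemma tl_apply (x : K) (n : ℕ) : tl x n = x (n + 1) := rfl

@[simp] lemma tl_cn (b : Bool) (x : K) : tl (cn b x) = x := by
  ext n; rfl

lemma cn_tl (x : K) : cn (x 0) (tl x) = x := by
  funext n; cases n <;> rfl

/-- the zero sequence -/
def zs : K := fun _ => false

@[simp] lemma cn_zs : cn false zs = zs := by
  funext n; cases n <;> rfl

/-- restriction of a function to the digit-`b` half -/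
def br (b : Bool) (f : X) : X := f.comp (cn b)

@[simp] lemma br_apply (b : Bool) (f : X) (x : K) : br b f x = f (cn b x) := rfl
@[simp] lemma br_add (b : Bool) (f g : X) : br b (f + g) = br b f + br b g := rfl
@[simp] lemma br_smul (b : Bool) (c : ℝ) (f : X) : br b (c • f) = c • br b f := rfl
@[simp] lemma br_one (b : Bool) : br b (1 : X) = 1 := rfl

/-- modulus of continuity on the Cantor set -/
lemma modulus (f : X) {ε : ℝ} (hε : 0 < ε) :
    ∃ N : ℕ, ∀ x y : K, (∀ i < N, x i = y i) → |f x - f y| ≤ ε := by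
  classical
  have h1 : ∀ x : K, ∃ n : ℕ, ∀ y : K, (∀ i < n, y i = x i) → |f y - f x| ≤ ε / 2 := by
    intro x
    have hopen : IsOpen {y : K | |f y - f x| < ε / 2} :=
      isOpen_lt (by fun_prop) continuous_const
    have hx : x ∈ {y : K | |f y - f x| < ε / 2} := by
      simp; positivity
    obtain ⟨s, ⟨z, n, rfl⟩, hxs, hs⟩ :=
      (PiNat.isTopologicalBasis_cylinders (fun _ : ℕ => Bool)).exists_subset_of_mem_open hx hopen
    refine ⟨n, fun y hy => le_of_lt (hs ?_)⟩
    intro i hi
    rw [hy i hi, hxs i hi]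
  choose n hn using h1
  have hcov : (Set.univ : Set K) ⊆ ⋃ x : K, PiNat.cylinder x (n x) := by
    intro x _
    exact Set.mem_iUnion.2 ⟨x, PiNat.self_mem_cylinder x (n x)⟩
  obtain ⟨t, ht⟩ :=
    isCompact_univ.elim_finite_subcover _ (fun x => PiNat.isOpen_cylinder _ x (n x)) hcov
  refine ⟨t.sup n, fun x y hxy => ?_⟩
  have hx := ht (Set.mem_univ x)
  simp only [Set.mem_iUnion] at hx
  obtain ⟨z, hz, hxz⟩ := hx
  have hxz' : ∀ i < n z, x i = z i := hxz
  have h2 : ∀ i < n z, y i = z i := fun i hi => by
    rw [← hxy i (lt_of_lt_of_le hi (Finset.le_sup (f := n) hz)), hxz' i hi]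
  have h3 := hn z x hxz'
  have h4 := hn z y h2
  have : f x - f y = (f x - f z) - (f y - f z) := by ring
  rw [this]
  calc |(f x - f z) - (f y - f z)| ≤ |f x - f z| + |f y - f z| := abs_sub _ _
    _ ≤ ε := by linarith

/-- probability that the next digit is `true` -/
def p (t : ℝ) : ℝ := max 0 (min 1 (3 * t - 1))

lemma p_nonneg (t : ℝ) : 0 ≤ p t := le_max_left _ _
lemma p_le_one (t : ℝ) : p t ≤ 1 := max_le zero_le_one (min_le_left _ _)
lemma continuous_p : Continuous p := by unfold p; fun_prop
lemma p_eq_zero {t : ℝ} (h : t ≤ 1 / 3) : p t = 0 := by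
  unfold p
  rw [max_eq_left]
  exact (min_le_right _ _).trans (by linarith)
lemma p_eq_one {t : ℝ} (h : 2 / 3 ≤ t) : p t = 1 := by
  unfold p
  rw [min_eq_left (by linarith), max_eq_right zero_le_one]

/-- the `n`-th approximation of the digit operator with base `β` -/
def A (β : ℝ) : ℕ → X → ℝ → ℝ
  | 0, f, _ => f zs
  | n + 1, f, t =>
      (1 - p t) * A β n (br false f) (β * t) + p t * A β n (br true f) (β * t - (β - 1))

lemma A_zero (β : ℝ) (f : X) (t : ℝ) : A β 0 f t = f zs := rfl
lemma A_succ (β : ℝ) (n : ℕ) (f : X) (t : ℝ) : A β (n + 1) f t =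
    (1 - p t) * A β n (br false f) (β * t) + p t * A β n (br true f) (β * t - (β - 1)) := rfl

lemma continuous_A (β : ℝ) (n : ℕ) : ∀ f : X, Continuous (A β n f) := by
  induction n with
  | zero => intro f; exact continuous_const
  | succ n ih =>
    intro f
    have h0 := ih (br false f)
    have h1 := ih (br true f)
    have hp := continuous_p
    have : A β (n + 1) f = fun t =>
      (1 - p t) * A β n (br false f) (β * t) + p t * A β n (br true f) (β * t - (β - 1)) := by
      funext t; rfl
    rw [this]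
    fun_prop

lemma A_add (β : ℝ) (n : ℕ) : ∀ (f g : X) (t : ℝ), A β n (f + g) t = A β n f t + A β n g t := by
  induction n with
  | zero => intro f g t; rfl
  | succ n ih =>
    intro f g t
    simp only [A_succ, br_add, ih]
    ring

lemma A_smul (β : ℝ) (n : ℕ) : ∀ (c : ℝ) (f : X) (t : ℝ), A β n (c • f) t = c * A β n f t := by
  induction n with
  | zero => intro c f t; rfl
  | succ n ih =>
    intro c f t
    simp only [A_succ, br_smul, ih]
    ring

lemma A_near (β : ℝ) (n : ℕ) : ∀ (f : X) (t c ε : ℝ), (∀ x, |f x - c| ≤ ε) →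
    |A β n f t - c| ≤ ε := by
  induction n with
  | zero => intro f t c ε h; exact h zs
  | succ n ih =>
    intro f t c ε h
    have h0 := ih (br false f) (β * t) c ε (fun x => h _)
    have h1 := ih (br true f) (β * t - (β - 1)) c ε (fun x => h _)
    rw [A_succ]
    have hp0 := p_nonneg t
    have hp1 := p_le_one t
    rw [abs_le] at h0 h1 ⊢
    constructor <;> nlinarith

lemma A_nonneg (β : ℝ) (n : ℕ) : ∀ (f : X) (t : ℝ), (∀ x, 0 ≤ f x) → 0 ≤ A β n f t := by
  induction n with
  | zero => intro f t h; exact h zs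
  | succ n ih =>
    intro f t h
    have h0 := ih (br false f) (β * t) (fun x => h _)
    have h1 := ih (br true f) (β * t - (β - 1)) (fun x => h _)
    rw [A_succ]
    have hp0 := p_nonneg t
    have hp1 := p_le_one t
    exact add_nonneg (mul_nonneg (by linarith) h0) (mul_nonneg hp0 h1)

lemma A_one (β : ℝ) (n : ℕ) : ∀ (t : ℝ), A β n (1 : X) t = 1 := by
  induction n with
  | zero => intro t; rfl
  | succ n ih =>
    intro t
    simp only [A_succ, br_one, ih]
    ring

lemma A_cauchy (β : ℝ) (n : ℕ) : ∀ (m : ℕ) (f : X) (t ε : ℝ), n ≤ m →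
    (∀ x y : K, (∀ i < n, x i = y i) → |f x - f y| ≤ ε) →
    |A β m f t - A β n f t| ≤ ε := by
  induction n with
  | zero =>
    intro m f t ε _ h
    exact A_near β m f t (f zs) ε (fun x => h x zs (by simp))
  | succ n ih =>
    intro m f t ε hm h
    obtain ⟨m, rfl⟩ : ∃ k, m = k + 1 := ⟨m - 1, by omega⟩
    have hm' : n ≤ m := by omega
    have hb : ∀ b : Bool, ∀ x y : K, (∀ i < n, x i = y i) → |br b f x - br b f y| ≤ ε := by
      intro b x y hxy
      apply h
      intro i hi
      cases i with
      | zero => rfl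
      | succ i => exact hxy i (by omega)
    have h0 := ih m (br false f) (β * t) ε hm' (hb false)
    have h1 := ih m (br true f) (β * t - (β - 1)) ε hm' (hb true)
    rw [A_succ, A_succ]
    have hp0 := p_nonneg t
    have hp1 := p_le_one t
    rw [abs_le] at h0 h1 ⊢
    constructor <;> nlinarith

/-- uniform convergence of the approximations -/
lemma exists_limit (β : ℝ) (f : X) : ∃ F : ℝ → ℝ, TendstoUniformly (fun n => A β n f) F atTop := by
  have hc : UniformCauchySeqOn (fun n => A β n f) atTop Set.univ := by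
    rw [Metric.uniformCauchySeqOn_iff]
    intro ε hε
    obtain ⟨N, hN⟩ := modulus f (show 0 < ε / 4 by positivity)
    refine ⟨N, fun m hm n hn t _ => ?_⟩
    have h1 := A_cauchy β N m f t _ hm hN
    have h2 := A_cauchy β N n f t _ hn hN
    rw [Real.dist_eq]
    have : A β m f t - A β n f t = (A β m f t - A β N f t) - (A β n f t - A β N f t) := by ring
    rw [this]
    calc _ ≤ |A β m f t - A β N f t| + |A β n f t - A β N f t| := abs_sub _ _
      _ < ε := by linarith
  have hl : ∀ t : ℝ, ∃ l, Tendsto (fun n => A β n f t) atTop (𝓝 l) := by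
    intro t
    exact cauchySeq_tendsto_of_complete (hc.cauchySeq (Set.mem_univ t))
  choose F hF using hl
  refine ⟨F, ?_⟩
  rw [← tendstoUniformlyOn_univ]
  exact hc.tendstoUniformlyOn_of_tendsto (fun t _ => hF t)

/-- the limit function -/
noncomputable def lim (β : ℝ) (f : X) : ℝ → ℝ := (exists_limit β f).choose

lemma lim_unif (β : ℝ) (f : X) : TendstoUniformly (fun n => A β n f) (lim β f) atTop :=
  (exists_limit β f).choose_spec

lemma lim_tendsto (β : ℝ) (f : X) (t : ℝ) : Tendsto (fun n => A β n f t) atTop (𝓝 (lim β f t)) :=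
  (lim_unif β f).tendsto_at t

lemma continuous_lim (β : ℝ) (f : X) : Continuous (lim β f) :=
  (lim_unif β f).continuous (Frequently.of_forall (fun n => continuous_A β n f))

/-- The digit operator `C(2^ω) → C[0,1]` with base `β`. -/
noncomputable def U (β : ℝ) : X →ₗ[ℝ] C(unitInterval, ℝ) where
  toFun f := ⟨fun t => lim β f t, (continuous_lim β f).comp continuous_subtype_val⟩
  map_add' f g := by
    ext t
    refine tendsto_nhds_unique (lim_tendsto β (f + g) t) ?_
    have := (lim_tendsto β f t).add (lim_tendsto β g t)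
    refine this.congr (fun n => ?_)
    rw [A_add]
  map_smul' c f := by
    ext t
    refine tendsto_nhds_unique (lim_tendsto β (c • f) t) ?_
    have := (lim_tendsto β f t).const_mul c
    refine this.congr (fun n => ?_)
    rw [A_smul]

lemma U_apply (β : ℝ) (f : X) (t : unitInterval) : U β f t = lim β f t := rfl

lemma U_tendsto (β : ℝ) (f : X) (t : unitInterval) :
    Tendsto (fun n => A β n f t) atTop (𝓝 (U β f t)) := lim_tendsto β f t

lemma U_nonneg (β : ℝ) (f : X) (hf : ∀ x, 0 ≤ f x) (t : unitInterval) : 0 ≤ U β f t :=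
  ge_of_tendsto' (U_tendsto β f t) (fun n => A_nonneg β n f t hf)

lemma U_one (β : ℝ) : U β 1 = 1 := by
  ext t
  refine tendsto_nhds_unique (U_tendsto β 1 t) ?_
  simp only [A_one]
  exact tendsto_const_nhds

/-! ### The value map -/

/-- value of a digit sequence with ratio `ρ` -/
noncomputable def val (ρ : ℝ) (x : K) : ℝ := ∑' i : ℕ, (if x i then (1 - ρ) * ρ ^ i else 0)

section val
variable {ρ : ℝ} (h0 : 0 < ρ) (h1 : ρ < 1)
include h0 h1

lemma val_summable (x : K) : Summable (fun i : ℕ => (if x i then (1 - ρ) * ρ ^ i else 0)) := by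
  refine Summable.of_nonneg_of_le (fun i => ?_) (fun i => ?_)
    ((summable_geometric_of_lt_one h0.le h1).mul_left (1 - ρ))
  · split_ifs
    · have : 0 ≤ 1 - ρ := by linarith
      positivity
    · exact le_rfl
  · split_ifs
    · exact le_rfl
    · have : 0 ≤ 1 - ρ := by linarith
      positivity

lemma val_nonneg (x : K) : 0 ≤ val ρ x := by
  refine tsum_nonneg (fun i => ?_)
  split_ifs
  · have : 0 ≤ 1 - ρ := by linarith
    positivity
  · exact le_rfl

lemma val_le_one (x : K) : val ρ x ≤ 1 := by
  have h2 : val ρ x ≤ ∑' i : ℕ, (1 - ρ) * ρ ^ i := by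
    refine Summable.tsum_le_tsum (fun i => ?_) (val_summable h0 h1 x)
      ((summable_geometric_of_lt_one h0.le h1).mul_left (1 - ρ))
    split_ifs
    · exact le_rfl
    · have : 0 ≤ 1 - ρ := by linarith
      positivity
  rw [tsum_mul_left, tsum_geometric_of_lt_one h0.le h1, mul_inv_cancel₀ (by linarith)] at h2
  exact h2

lemma val_cn (b : Bool) (x : K) : val ρ (cn b x) = (if b then 1 - ρ else 0) + ρ * val ρ x := by
  have key : ∀ i : ℕ, (if cn b x (i + 1) = true then (1 - ρ) * ρ ^ (i + 1) else 0)
      = ρ * (if x i = true then (1 - ρ) * ρ ^ i else 0) := by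
    intro i
    change (if x i = true then (1 - ρ) * ρ ^ (i + 1) else 0) = _
    by_cases hx : x i = true
    · rw [if_pos hx, if_pos hx]
      ring
    · rw [if_neg hx, if_neg hx]
      ring
  unfold val
  rw [(val_summable h0 h1 (cn b x)).tsum_eq_zero_add, tsum_congr key, tsum_mul_left]
  simp

lemma continuous_val : Continuous (val ρ) := by
  unfold val
  refine continuous_tsum (u := fun i => (1 - ρ) * ρ ^ i) (fun i => ?_)
    ((summable_geometric_of_lt_one h0.le h1).mul_left (1 - ρ)) (fun i x => ?_)
  · have : (fun x : K => (if x i then (1 - ρ) * ρ ^ i else 0)) =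
      (fun b : Bool => (if b then (1 - ρ) * ρ ^ i else 0)) ∘ (fun x : K => x i) := rfl
    rw [this]
    exact continuous_of_discreteTopology.comp (continuous_apply i)
  · have : 0 ≤ 1 - ρ := by linarith
    have h3 : 0 ≤ (1 - ρ) * ρ ^ i := by positivity
    rw [Real.norm_eq_abs]
    split_ifs
    · rw [abs_of_nonneg h3]
    · simpa using h3

end val

/-- value map as a continuous map into `[0,1]` -/
noncomputable def vmap (ρ : ℝ) (h0 : 0 < ρ) (h1 : ρ < 1) : C(K, unitInterval) :=
  ⟨fun x => ⟨val ρ x, val_nonneg h0 h1 x, val_le_one h0 h1 x⟩,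
    (continuous_val h0 h1).subtype_mk _⟩

/-! ### Base 3: the extension operator for the ternary Cantor set -/

/-- truncation of a digit sequence -/
def trunc (n : ℕ) (x : K) : K := fun i => if i < n then x i else false

lemma trunc_zero (x : K) : trunc 0 x = zs := by funext i; simp [trunc, zs]
lemma trunc_succ (n : ℕ) (b : Bool) (x : K) : trunc (n + 1) (cn b x) = cn b (trunc n x) := by
  funext i
  cases i with
  | zero => simp [trunc]
  | succ i => simp [trunc]

lemma A_three (n : ℕ) : ∀ (f : X) (x : K), A 3 n f (val (1 / 3) x) = f (trunc n x) := by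
  induction n with
  | zero => intro f x; rw [trunc_zero]; rfl
  | succ n ih =>
    intro f x
    have h0 : (0 : ℝ) < 1 / 3 := by norm_num
    have h1 : (1 / 3 : ℝ) < 1 := by norm_num
    rw [← cn_tl x]
    set y := tl x
    have hy0 := val_nonneg h0 h1 y
    have hy1 := val_le_one h0 h1 y
    rw [trunc_succ, A_succ, val_cn h0 h1]
    cases hx : x 0 with
    | false =>
      have e1 : p ((if false = true then 1 - 1 / 3 else 0) + 1 / 3 * val (1 / 3) y) = 0 :=
        p_eq_zero (by simp; linarith)
      have e2 : (3 : ℝ) * ((if false = true then 1 - 1 / 3 else 0) + 1 / 3 * val (1 / 3) y)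
        = val (1 / 3) y := by simp
      rw [e1, e2, ih]
      simp
    | true =>
      have e1 : p ((if true = true then 1 - 1 / 3 else 0) + 1 / 3 * val (1 / 3) y) = 1 :=
        p_eq_one (by simp; linarith)
      have e2 : (3 : ℝ) * ((if true = true then 1 - 1 / 3 else 0) + 1 / 3 * val (1 / 3) y) - (3 - 1)
        = val (1 / 3) y := by simp; ring
      rw [e1, e2, ih]
      simp

lemma tendsto_trunc (f : X) (x : K) : Tendsto (fun n => f (trunc n x)) atTop (𝓝 (f x)) := by
  rw [Metric.tendsto_atTop]
  intro ε hε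
  obtain ⟨N, hN⟩ := modulus f (show 0 < ε / 2 by positivity)
  refine ⟨N, fun n hn => ?_⟩
  rw [Real.dist_eq]
  have := hN (trunc n x) x (fun i hi => by simp [trunc, lt_of_lt_of_le hi hn])
  linarith

/-- embedding of the Cantor set as the ternary Cantor set -/
noncomputable def emb : C(K, unitInterval) := vmap (1 / 3) (by norm_num) (by norm_num)

/-- the extension operator -/
noncomputable def Eop : X →ₗ[ℝ] C(unitInterval, ℝ) := U 3

lemma Eop_emb (f : X) (x : K) : Eop f (emb x) = f x := by
  refine tendsto_nhds_unique (U_tendsto 3 f (emb x)) ?_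
  have h : ∀ n, A 3 n f (emb x : unitInterval) = f (trunc n x) := fun n => A_three n f x
  simp only [h]
  exact tendsto_trunc f x

/-! ### Base 3/2: the Miljutin averaging operator -/

lemma A_loc (n : ℕ) : ∀ (f : X) (t c ε : ℝ), 0 ≤ t → t ≤ 1 →
    (∀ x, |val (2 / 3) x - t| ≤ (2 / 3) ^ n → |f x - c| ≤ ε) →
    |A (3 / 2) n f t - c| ≤ ε := by
  have h0 : (0 : ℝ) < 2 / 3 := by norm_num
  have h1 : (2 / 3 : ℝ) < 1 := by norm_num
  induction n with
  | zero =>
    intro f t c ε ht0 ht1 h
    refine h zs ?_
    have a := val_nonneg h0 h1 zs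
    have b := val_le_one h0 h1 zs
    rw [pow_zero, abs_le]
    constructor <;> linarith
  | succ n ih =>
    intro f t c ε ht0 ht1 h
    rw [A_succ]
    have hp0 := p_nonneg t
    have hp1 := p_le_one t
    have key0 : t < 2 / 3 → |A (3 / 2) n (br false f) (3 / 2 * t) - c| ≤ ε := by
      intro ht
      refine ih _ _ _ _ (by linarith) (by linarith) (fun x hx => ?_)
      refine h (cn false x) ?_
      rw [val_cn h0 h1]
      have : (if false = true then 1 - 2 / 3 else 0) + 2 / 3 * val (2 / 3) x - t
        = 2 / 3 * (val (2 / 3) x - 3 / 2 * t) := by simp; ring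
      rw [this, abs_mul, abs_of_pos h0, pow_succ, mul_comm]
      exact mul_le_mul_of_nonneg_right hx h0.le
    have key1 : 1 / 3 < t → |A (3 / 2) n (br true f) (3 / 2 * t - (3 / 2 - 1)) - c| ≤ ε := by
      intro ht
      refine ih _ _ _ _ (by linarith) (by linarith) (fun x hx => ?_)
      refine h (cn true x) ?_
      rw [val_cn h0 h1]
      have : (if true = true then 1 - 2 / 3 else 0) + 2 / 3 * val (2 / 3) x - t
        = 2 / 3 * (val (2 / 3) x - (3 / 2 * t - (3 / 2 - 1))) := by simp; ring
      rw [this, abs_mul, abs_of_pos h0, pow_succ, mul_comm]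
      exact mul_le_mul_of_nonneg_right hx h0.le
    rcases le_or_gt t (1 / 3) with ht | ht
    · rw [p_eq_zero ht]
      simpa using key0 (by linarith)
    rcases le_or_gt (2 / 3) t with ht' | ht'
    · rw [p_eq_one ht']
      simpa using key1 (by linarith)
    · have k0 := key0 ht'
      have k1 := key1 ht
      rw [abs_le] at k0 k1 ⊢
      constructor <;> nlinarith

/-- the Miljutin surjection `2^ω → [0,1]` -/
noncomputable def sur : C(K, unitInterval) := vmap (2 / 3) (by norm_num) (by norm_num)

/-- the averaging operator -/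
noncomputable def uop : X →ₗ[ℝ] C(unitInterval, ℝ) := U (3 / 2)

lemma uop_sur (h : C(unitInterval, ℝ)) : uop (h.comp sur) = h := by
  ext t
  refine tendsto_nhds_unique (U_tendsto (3 / 2) (h.comp sur) t) ?_
  rw [Metric.tendsto_atTop]
  intro ε hε
  obtain ⟨δ, hδ, hh⟩ := Metric.continuous_iff.mp h.continuous t (ε / 2) (by positivity)
  obtain ⟨N, hN⟩ := exists_pow_lt_of_lt_one hδ (show (2 / 3 : ℝ) < 1 by norm_num)
  refine ⟨N, fun n hn => ?_⟩
  rw [Real.dist_eq]
  refine lt_of_le_of_lt (A_loc n (h.comp sur) t (h t) (ε / 2) t.2.1 t.2.2 (fun x hx => ?_))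
    (by linarith)
  have hd : dist (sur x) t < δ := by
    rw [Subtype.dist_eq, Real.dist_eq]
    refine lt_of_le_of_lt hx (lt_of_le_of_lt ?_ hN)
    exact pow_le_pow_of_le_one (by norm_num) (by norm_num) hn
  have := hh (sur x) hd
  rw [Real.dist_eq] at this
  exact this.le

end Pool.Agent.H47
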