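import Pool.Agent.H47.DigitOp

set_option autoImplicit false
set_option linter.unusedSectionVars false

open Filter Topology

namespace Pool.Agent.H47

/-! ### Positive unital operators -/

/-- positive unital linear operators between spaces of continuous functions -/
structure PU {S T : Type*} [TopologicalSpace S] [TopologicalSpace T]
    (B : C(S, ℝ) →ₗ[ℝ] C(T, ℝ)) : Prop where
  nonneg : ∀ f : C(S, ℝ), (∀ x, 0 ≤ f x) → ∀ y, 0 ≤ B f y
  one : B 1 = 1

section PU
variable {S T W : Type*} [TopologicalSpace S] [TopologicalSpace T] [TopologicalSpace W]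
  [CompactSpace S] [CompactSpace T] [CompactSpace W]

omit [CompactSpace T] in
/-- a positive operator is bounded by its value at `1` -/
lemma pos_bound (B : C(S, ℝ) →ₗ[ℝ] C(T, ℝ))
    (hB : ∀ f : C(S, ℝ), (∀ x, 0 ≤ f x) → ∀ y, 0 ≤ B f y) (f : C(S, ℝ)) (y : T) :
    |B f y| ≤ ‖f‖ * B 1 y := by
  have h1 : 0 ≤ B (‖f‖ • 1 - f) y := hB _ (fun x => by
    have := (abs_le.mp (f.norm_coe_le_norm x)).2
    simpa using this) y
  have h2 : 0 ≤ B (‖f‖ • 1 + f) y := hB _ (fun x => by
    have := (abs_le.mp (f.norm_coe_le_norm x)).1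
    simp
    linarith) y
  rw [map_sub, map_smul] at h1
  rw [map_add, map_smul] at h2
  simp only [ContinuousMap.sub_apply, ContinuousMap.add_apply, ContinuousMap.smul_apply,
    smul_eq_mul] at h1 h2
  rw [abs_le]
  constructor <;> linarith

lemma PU.norm_le {B : C(S, ℝ) →ₗ[ℝ] C(T, ℝ)} (hB : PU B) (f : C(S, ℝ)) : ‖B f‖ ≤ ‖f‖ := by
  rw [ContinuousMap.norm_le _ (norm_nonneg f)]
  intro y
  have := pos_bound B hB.nonneg f y
  rw [hB.one] at this
  simpa using this

lemma PU.continuous {B : C(S, ℝ) →ₗ[ℝ] C(T, ℝ)} (hB : PU B) : Continuous B := by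
  let B' := B.mkContinuous 1 (fun f => by simpa using hB.norm_le f)
  exact B'.continuous

omit [CompactSpace S] [CompactSpace T] in
lemma PU.const {B : C(S, ℝ) →ₗ[ℝ] C(T, ℝ)} (hB : PU B) (c : ℝ) :
    B (ContinuousMap.const S c) = ContinuousMap.const T c := by
  have h1 : ContinuousMap.const S c = c • (1 : C(S, ℝ)) := by ext; simp
  have h2 : ContinuousMap.const T c = c • (1 : C(T, ℝ)) := by ext; simp
  rw [h1, h2, map_smul, hB.one]

omit [CompactSpace S] [CompactSpace T] [CompactSpace W] in
lemma PU.comp {B : C(S, ℝ) →ₗ[ℝ] C(T, ℝ)} {D : C(T, ℝ) →ₗ[ℝ] C(W, ℝ)} (hD : PU D) (hB : PU B) :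
    PU (D ∘ₗ B) :=
  ⟨fun f hf => hD.nonneg _ (hB.nonneg f hf), by simp [hB.one, hD.one]⟩

/-- a positive linear bijection is a positive isomorphism -/
lemma exists_equiv (B : C(S, ℝ) →ₗ[ℝ] C(T, ℝ))
    (hB : ∀ f : C(S, ℝ), (∀ x, 0 ≤ f x) → ∀ y, 0 ≤ B f y) (hbij : Function.Bijective B) :
    ∃ L : C(S, ℝ) ≃L[ℝ] C(T, ℝ), ∀ f : C(S, ℝ), (∀ x, 0 ≤ f x) → ∀ y, 0 ≤ (L f) y := by
  let B' : C(S, ℝ) →L[ℝ] C(T, ℝ) := B.mkContinuous ‖B 1‖ (fun f => by
    rw [ContinuousMap.norm_le _ (by positivity)]
    intro y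
    refine (pos_bound B hB f y).trans ?_
    rw [mul_comm]
    exact mul_le_mul_of_nonneg_right ((le_abs_self _).trans ((B 1).norm_coe_le_norm y))
      (norm_nonneg f))
  have hk : B'.ker = ⊥ := by
    rw [LinearMap.ker_eq_bot]
    exact hbij.1
  have hr : B'.range = ⊤ := by
    rw [LinearMap.range_eq_top]
    exact hbij.2
  exact ⟨ContinuousLinearEquiv.ofBijective B' hk hr, fun f hf y => hB f hf y⟩

/-- solving `2 s + B s = a` for a positive unital `B` -/
lemma solve {B : C(S, ℝ) →ₗ[ℝ] C(S, ℝ)} (hB : PU B) (a : C(S, ℝ)) :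
    ∃ s, (2 : ℝ) • s + B s = a := by
  have hc : ContractingWith (1 / 2) (fun s : C(S, ℝ) => (1 / 2 : ℝ) • (a - B s)) := by
    refine ⟨by norm_num [← NNReal.coe_lt_coe], LipschitzWith.of_dist_le_mul (fun s t => ?_)⟩
    rw [dist_eq_norm, dist_eq_norm]
    have : (1 / 2 : ℝ) • (a - B s) - (1 / 2 : ℝ) • (a - B t) = (1 / 2 : ℝ) • B (t - s) := by
      rw [map_sub]; module
    rw [this, norm_smul]
    have h2 := hB.norm_le (t - s)
    rw [norm_sub_rev] at h2
    rw [Real.norm_of_nonneg (by norm_num : (0 : ℝ) ≤ 1 / 2)]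
    simp only [one_div, NNReal.coe_inv, NNReal.coe_ofNat]
    exact mul_le_mul_of_nonneg_left h2 (by norm_num)
  refine ⟨hc.fixedPoint, ?_⟩
  have h := hc.fixedPoint_isFixedPt
  have h' : (1 / 2 : ℝ) • (a - B hc.fixedPoint) = hc.fixedPoint := h
  generalize hc.fixedPoint = s at h'
  have h3 : (2 : ℝ) • s = a - B s := by
    conv_lhs => rw [← h']
    rw [smul_smul]
    norm_num
  rw [h3]
  abel

end PU

/-! ### The branches of a function on the Cantor set -/

/-- the sequence `0^n 1 x` -/
def z (n : ℕ) : C(K, K) :=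
  ⟨fun x i => if i < n then false else if i = n then true else x (i - n - 1), by
    refine continuous_pi fun i => ?_
    by_cases h : i < n
    · simp only [h, if_true]; exact continuous_const
    · by_cases h' : i = n
      · simp only [h', lt_irrefl, if_false, if_true]; exact continuous_const
      · simp only [h, h', if_false]; exact continuous_apply _⟩

lemma z_apply (n : ℕ) (x : K) (i : ℕ) :
    z n x i = if i < n then false else if i = n then true else x (i - n - 1) := rfl

lemma z_zero (x : K) : z 0 x = cn true x := by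
  funext i
  cases i with
  | zero => simp [z_apply]
  | succ i => simp [z_apply]

lemma z_succ (n : ℕ) (x : K) : z (n + 1) x = cn false (z n x) := by
  funext i
  cases i with
  | zero => simp [z_apply]
  | succ i => simp [z_apply]

/-- the shifted sequence after position `n` -/
def sh (n : ℕ) : C(K, K) := ⟨fun x i => x (i + n + 1), continuous_pi fun _ => continuous_apply _⟩

lemma sh_z (n : ℕ) (x : K) : sh n (z n x) = x := by
  funext i
  change z n x (i + n + 1) = x i
  rw [z_apply, if_neg (by omega), if_neg (by omega)]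
  congr 1
  omega

lemma eq_z_of_find (x : K) (n : ℕ) (h1 : x n = true) (h2 : ∀ i < n, x i = false) :
    z n (sh n x) = x := by
  funext i
  rw [z_apply]
  by_cases h : i < n
  · rw [if_pos h, h2 i h]
  · rw [if_neg h]
    by_cases h' : i = n
    · rw [if_pos h', h', h1]
    · rw [if_neg h']
      change x (i - n - 1 + n + 1) = x i
      congr 1
      omega

/-- every point is either `0^∞` or of the form `0^n 1 x` -/
lemma cases_z (x : K) : x = zs ∨ ∃ n y, x = z n y := by
  classical
  by_cases h : ∃ n, x n = true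
  · right
    refine ⟨Nat.find h, sh (Nat.find h) x, (eq_z_of_find x _ (Nat.find_spec h) ?_).symm⟩
    intro i hi
    have := Nat.find_min h hi
    simpa using this
  · left
    funext i
    simp only [not_exists, Bool.not_eq_true] at h
    exact h i

/-- the `n`-th branch -/
def sq (n : ℕ) : X →ₗ[ℝ] X where
  toFun f := f.comp (z n)
  map_add' _ _ := rfl
  map_smul' _ _ := rfl

lemma sq_apply (n : ℕ) (f : X) (x : K) : sq n f x = f (z n x) := rfl

lemma sq_br (n : ℕ) (f : X) : sq n (br false f) = sq (n + 1) f := by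
  ext x
  rw [sq_apply, sq_apply, z_succ, br_apply]

lemma sq_PU (n : ℕ) : PU (sq n) := ⟨fun _ hf _ => hf _, rfl⟩

lemma ext_sq {f g : X} (h : ∀ n, sq n f = sq n g) (h0 : f zs = g zs) : f = g := by
  ext x
  rcases cases_z x with rfl | ⟨n, y, rfl⟩
  · exact h0
  · exact DFunLike.congr_fun (h n) y

lemma nonneg_of_sq {f : X} (h : ∀ n x, 0 ≤ sq n f x) (h0 : 0 ≤ f zs) : ∀ x, 0 ≤ f x := by
  intro x
  rcases cases_z x with rfl | ⟨n, y, rfl⟩
  · exact h0
  · exact h n y

lemma sq_tendsto (f : X) :
    Tendsto (fun n => sq n f) atTop (𝓝 (ContinuousMap.const K (f zs))) := by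
  rw [Metric.tendsto_atTop]
  intro ε hε
  obtain ⟨N, hN⟩ := modulus f (show 0 < ε / 2 by positivity)
  refine ⟨N, fun n hn => ?_⟩
  refine lt_of_le_of_lt ((ContinuousMap.dist_le (by positivity : 0 ≤ ε / 2)).2 fun x => ?_)
    (by linarith)
  rw [Real.dist_eq]
  refine hN _ _ (fun i hi => ?_)
  rw [z_apply, if_pos (by omega)]
  rfl

lemma sq_eq {f g : X} (h : ∀ n, sq n f = sq n g) : f = g := by
  refine ext_sq h ?_
  have h1 := sq_tendsto f
  simp only [h] at h1
  have h2 := tendsto_nhds_unique h1 (sq_tendsto g)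
  exact DFunLike.congr_fun h2 zs

/-- gluing of branches -/
lemma glue (g : ℕ → X) (c : ℝ) (hg : Tendsto g atTop (𝓝 (ContinuousMap.const K c))) :
    ∃ G : X, (∀ n, sq n G = g n) ∧ G zs = c := by
  classical
  let G : K → ℝ := fun x => if h : ∃ n, x n = true then g (Nat.find h) (sh (Nat.find h) x) else c
  have hGz : ∀ (x : K) (n : ℕ), x n = true → (∀ i < n, x i = false) → G x = g n (sh n x) := by
    intro x n h1 h2
    have h : ∃ n, x n = true := ⟨n, h1⟩
    have hf : Nat.find h = n := by
      rw [Nat.find_eq_iff]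
      refine ⟨h1, fun i hi => ?_⟩
      rw [h2 i hi]; simp
    simp only [G]
    rw [dif_pos h, hf]
  have hG0 : G zs = c := by
    simp only [G]
    rw [dif_neg]
    simp [zs]
  have hcont : Continuous G := by
    rw [continuous_iff_continuousAt]
    intro x
    by_cases h : ∃ n, x n = true
    · set n := Nat.find h with hn
      have h1 : x n = true := Nat.find_spec h
      have h2 : ∀ i < n, x i = false := fun i hi => by
        have := Nat.find_min h hi
        simpa using this
      have hnb : PiNat.cylinder x (n + 1) ∈ 𝓝 x :=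
        (PiNat.isOpen_cylinder _ x (n + 1)).mem_nhds (PiNat.self_mem_cylinder x (n + 1))
      have hev : (fun y => g n (sh n y)) =ᶠ[𝓝 x] G := by
        filter_upwards [hnb] with y hy
        refine (hGz y n ?_ ?_).symm
        · rw [hy n (by omega), h1]
        · intro i hi
          rw [hy i (by omega), h2 i hi]
      refine ContinuousAt.congr ?_ hev
      exact ((g n).continuous.comp (sh n).continuous).continuousAt
    · have hx : x = zs := by
        funext i
        simp only [not_exists, Bool.not_eq_true] at h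
        exact h i
      subst hx
      rw [Metric.continuousAt_iff']
      intro ε hε
      rw [Metric.tendsto_atTop] at hg
      obtain ⟨N, hN⟩ := hg ε hε
      have hnb : PiNat.cylinder zs N ∈ 𝓝 zs :=
        (PiNat.isOpen_cylinder _ zs N).mem_nhds (PiNat.self_mem_cylinder zs N)
      filter_upwards [hnb] with y hy
      rw [hG0]
      by_cases h' : ∃ n, y n = true
      · have h1 : y (Nat.find h') = true := Nat.find_spec h'
        have h3 : N ≤ Nat.find h' := by
          by_contra hlt
          push Not at hlt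
          have := hy _ hlt
          rw [h1] at this
          simp [zs] at this
        rw [hGz y (Nat.find h') h1 (fun i hi => by
          have := Nat.find_min h' hi
          simpa using this)]
        exact lt_of_le_of_lt (ContinuousMap.dist_apply_le_dist (f := g (Nat.find h'))
          (g := ContinuousMap.const K c) _) (hN _ h3)
      · have : y = zs := by
          funext i
          simp only [not_exists, Bool.not_eq_true] at h'
          exact h' i
        rw [this, hG0, dist_self]
        exact hε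
  refine ⟨⟨G, hcont⟩, fun n => ?_, hG0⟩
  ext x
  change G (z n x) = g n x
  rw [hGz (z n x) n (by simp [z_apply]) (fun i hi => by simp [z_apply, hi]), sh_z]

/-- apply a positive unital operator to every branch -/
lemma exists_D {B : X →ₗ[ℝ] X} (hB : PU B) (f : X) :
    ∃ G : X, (∀ n, sq n G = B (sq n f)) ∧ G zs = f zs := by
  refine glue _ _ ?_
  have h := (hB.continuous.tendsto _).comp (sq_tendsto f)
  rw [hB.const] at h
  exact h

/-- branchwise application of a positive unital operator -/
noncomputable def D (B : X →ₗ[ℝ] X) (hB : PU B) : X →ₗ[ℝ] X where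
  toFun f := (exists_D hB f).choose
  map_add' f g := by
    have hf := (exists_D hB f).choose_spec
    have hg := (exists_D hB g).choose_spec
    have hfg := (exists_D hB (f + g)).choose_spec
    refine ext_sq (fun n => ?_) ?_
    · rw [hfg.1, map_add, map_add, map_add, hf.1, hg.1]
    · rw [hfg.2, ContinuousMap.add_apply, ContinuousMap.add_apply, hf.2, hg.2]
  map_smul' c f := by
    have hf := (exists_D hB f).choose_spec
    have hcf := (exists_D hB (c • f)).choose_spec
    refine ext_sq (fun n => ?_) ?_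
    · rw [hcf.1, map_smul, map_smul, map_smul, hf.1]
      rfl
    · rw [hcf.2]
      simp [hf.2]

lemma sq_D {B : X →ₗ[ℝ] X} (hB : PU B) (f : X) (n : ℕ) : sq n (D B hB f) = B (sq n f) :=
  (exists_D hB f).choose_spec.1 n

lemma D_zs {B : X →ₗ[ℝ] X} (hB : PU B) (f : X) : D B hB f zs = f zs :=
  (exists_D hB f).choose_spec.2

lemma D_nonneg {B : X →ₗ[ℝ] X} (hB : PU B) (f : X) (hf : ∀ x, 0 ≤ f x) (x : K) :
    0 ≤ D B hB f x := by
  refine nonneg_of_sq (fun n y => ?_) ?_ x
  · rw [sq_D]
    exact hB.nonneg _ ((sq_PU n).nonneg f hf) y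
  · rw [D_zs]; exact hf _

/-- indicator of the digit-1 half -/
def ind : X := ⟨fun x => if x 0 then 1 else 0,
  (continuous_of_discreteTopology (f := fun b : Bool => if b then (1 : ℝ) else 0)).comp
    (continuous_apply 0)⟩

/-- gluing of two halves, as a linear map of the first component -/
def pl : X →ₗ[ℝ] X where
  toFun f := (1 - ind) * f.comp tl
  map_add' f g := by ext x; simp [mul_add]
  map_smul' c f := by ext x; simp

/-- gluing of two halves, as a linear map of the second component -/
def pr : X →ₗ[ℝ] X where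
  toFun f := ind * f.comp tl
  map_add' f g := by ext x; simp [mul_add]
  map_smul' c f := by ext x; simp

lemma pl_false (f : X) (x : K) : pl f (cn false x) = f x := by simp [pl, ind]
lemma pl_true (f : X) (x : K) : pl f (cn true x) = 0 := by simp [pl, ind]
lemma pr_false (f : X) (x : K) : pr f (cn false x) = 0 := by simp [pr, ind]
lemma pr_true (f : X) (x : K) : pr f (cn true x) = f x := by simp [pr, ind]

lemma pl_nonneg (f : X) (hf : ∀ x, 0 ≤ f x) (x : K) : 0 ≤ pl f x := by
  rw [← cn_tl x]
  cases x 0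
  · rw [pl_false]; exact hf _
  · rw [pl_true]

lemma pr_nonneg (f : X) (hf : ∀ x, 0 ≤ f x) (x : K) : 0 ≤ pr f x := by
  rw [← cn_tl x]
  cases x 0
  · rw [pr_false]
  · rw [pr_true]; exact hf _

lemma pl_pr (f : X) : pl (br false f) + pr (br true f) = f := by
  ext x
  rw [← cn_tl x]
  cases x 0
  · simp [pl_false, pr_false]
  · simp [pl_true, pr_true]

lemma ext_br {f g : X} (h0 : br false f = br false g) (h1 : br true f = br true g) : f = g := by
  rw [← pl_pr f, ← pl_pr g, h0, h1]

lemma br_false_pl (f : X) : br false (pl f) = f := by ext x; simp [pl_false]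
lemma br_true_pl (f : X) : br true (pl f) = 0 := by ext x; simp [pl_true]
lemma br_false_pr (f : X) : br false (pr f) = 0 := by ext x; simp [pr_false]
lemma br_true_pr (f : X) : br true (pr f) = f := by ext x; simp [pr_true]

/-- `br b` as a linear map -/
def brl (b : Bool) : X →ₗ[ℝ] X where
  toFun f := br b f
  map_add' _ _ := rfl
  map_smul' _ _ := rfl

lemma brl_apply (b : Bool) (f : X) : brl b f = br b f := rfl

lemma brl_PU (b : Bool) : PU (brl b) := ⟨fun _ hf _ => hf _, rfl⟩

/-! ### The positive isomorphism -/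

section main
variable {L : Type*} [TopologicalSpace L] [CompactSpace L]
  (E u : X →ₗ[ℝ] C(L, ℝ)) (R P : C(L, ℝ) →ₗ[ℝ] X)
  (hE : PU E) (hu : PU u) (hR : PU R) (hP : PU P)

/-- the second component -/
noncomputable def M : X →ₗ[ℝ] X :=
  brl false + D (P ∘ₗ u) (hP.comp hu) ∘ₗ (brl false ∘ₗ brl false)
    + D (P ∘ₗ E ∘ₗ R ∘ₗ u) (hP.comp (hE.comp (hR.comp hu))) ∘ₗ (brl false ∘ₗ brl true)
    + D (P ∘ₗ u) (hP.comp hu) ∘ₗ brl true
    + D (P ∘ₗ E ∘ₗ R ∘ₗ u) (hP.comp (hE.comp (hR.comp hu))) ∘ₗ brl false

lemma sq_M (f : X) (n : ℕ) : sq n (M E u R P hE hu hR hP f) =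
    sq n (br false f) + P (u (sq (n + 1) (br false f))) + P (E (R (u (sq (n + 1) (br true f)))))
      + P (u (sq n (br true f))) + P (E (R (u (sq n (br false f))))) := by
  simp only [M, LinearMap.add_apply, LinearMap.comp_apply, map_add, sq_D, brl_apply, sq_br]

lemma M_nonneg (f : X) (hf : ∀ x, 0 ≤ f x) (x : K) : 0 ≤ M E u R P hE hu hR hP f x := by
  have h0 : ∀ x, 0 ≤ br false f x := fun x => hf _
  have h1 : ∀ x, 0 ≤ br true f x := fun x => hf _
  have h00 : ∀ x, 0 ≤ br false (br false f) x := fun x => h0 _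
  have h10 : ∀ x, 0 ≤ br false (br true f) x := fun x => h1 _
  simp only [M, LinearMap.add_apply, LinearMap.comp_apply, brl_apply, ContinuousMap.add_apply]
  refine add_nonneg (add_nonneg (add_nonneg (add_nonneg ?_ ?_) ?_) ?_) ?_
  · exact h0 x
  · exact D_nonneg _ _ h00 x
  · exact D_nonneg _ _ h10 x
  · exact D_nonneg _ _ h1 x
  · exact D_nonneg _ _ h0 x

/-- the positive isomorphism -/
noncomputable def T : X →ₗ[ℝ] C(L, ℝ) :=
  u ∘ₗ sq 0 ∘ₗ brl false + E ∘ₗ R ∘ₗ u ∘ₗ sq 0 ∘ₗ brl true
    + E ∘ₗ ((2 : ℝ) • (pl ∘ₗ (brl false + brl true)) + pr ∘ₗ M E u R P hE hu hR hP)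

lemma T_apply (f : X) : T E u R P hE hu hR hP f = u (sq 0 (br false f)) + E (R (u (sq 0 (br true f))))
    + E ((2 : ℝ) • pl (br false f + br true f) + pr (M E u R P hE hu hR hP f)) := rfl

lemma T_nonneg (f : X) (hf : ∀ x, 0 ≤ f x) (y : L) : 0 ≤ T E u R P hE hu hR hP f y := by
  have h0 : ∀ x, 0 ≤ br false f x := fun x => hf _
  have h1 : ∀ x, 0 ≤ br true f x := fun x => hf _
  rw [T_apply, ContinuousMap.add_apply, ContinuousMap.add_apply]
  refine add_nonneg (add_nonneg ?_ ?_) ?_
  · exact hu.nonneg _ ((sq_PU 0).nonneg _ h0) y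
  · exact hE.nonneg _ (hR.nonneg _ (hu.nonneg _ ((sq_PU 0).nonneg _ h1))) y
  · refine hE.nonneg _ (fun x => ?_) y
    simp only [ContinuousMap.add_apply, ContinuousMap.smul_apply, smul_eq_mul]
    refine add_nonneg (mul_nonneg (by norm_num) ?_) ?_
    · exact pl_nonneg _ (fun x => add_nonneg (h0 x) (h1 x)) x
    · exact pr_nonneg _ (M_nonneg E u R P hE hu hR hP f hf) x

variable (hRE : ∀ f, R (E f) = f) (huP : ∀ h, u (P h) = h)
include hRE huP

lemma T_injective : Function.Injective (T E u R P hE hu hR hP) := by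
  rw [← LinearMap.ker_eq_bot, LinearMap.ker_eq_bot']
  intro f hf
  have hT := T_apply E u R P hE hu hR hP f
  rw [hf] at hT
  set f0 := br false f with hf0
  set f1 := br true f with hf1
  set m := M E u R P hE hu hR hP f with hm
  -- apply R
  have h1 : R (u (sq 0 f0)) + R (u (sq 0 f1)) + ((2 : ℝ) • pl (f0 + f1) + pr m) = 0 := by
    have := congrArg R hT
    rw [map_zero, map_add, map_add, hRE, hRE] at this
    exact this.symm
  have h2 : (2 : ℝ) • (f0 + f1) + br false (R (u (sq 0 (f0 + f1)))) = 0 := by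
    have := congrArg (br false) h1
    rw [br_add, br_add, br_add, br_smul, br_false_pl, br_false_pr] at this
    rw [map_add, map_add, map_add, br_add, ← brl_apply, ← brl_apply]
    rw [← brl_apply, ← brl_apply, ← brl_apply, map_zero] at this
    rw [← this]
    abel
  have hs : f0 + f1 = 0 := by
    have hn : ‖br false (R (u (sq 0 (f0 + f1))))‖ ≤ ‖f0 + f1‖ :=
      ((brl_PU false).comp (hR.comp (hu.comp (sq_PU 0)))).norm_le (f0 + f1)
    have h3 : (2 : ℝ) • (f0 + f1) = -br false (R (u (sq 0 (f0 + f1)))) := by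
      rw [eq_neg_iff_add_eq_zero]; exact h2
    have h4 : ‖(2 : ℝ) • (f0 + f1)‖ ≤ ‖f0 + f1‖ := by
      rw [h3, norm_neg]; exact hn
    rw [norm_smul] at h4
    have h5 : ‖f0 + f1‖ ≤ 0 := by
      have : ‖(2 : ℝ)‖ = 2 := by norm_num
      rw [this] at h4
      linarith
    exact norm_le_zero_iff.mp h5
  have hf1' : f1 = -f0 := by
    rw [eq_neg_iff_add_eq_zero, add_comm]; exact hs
  have hm0 : m = 0 := by
    have := congrArg (brl true) h1
    have e : sq 0 f1 = -sq 0 f0 := by rw [hf1', map_neg]
    rw [e, map_neg, map_neg] at this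
    rw [hs] at this
    rw [map_zero, smul_zero, zero_add, add_neg_cancel, zero_add, brl_apply, br_true_pr, map_zero]
      at this
    exact this
  -- the sequence of `V`-components
  have hv0 : u (sq 0 f0) - E (R (u (sq 0 f0))) = 0 := by
    rw [hs, hm0, hf1'] at hT
    simp only [map_zero, map_neg, smul_zero, add_zero] at hT
    rw [sub_eq_add_neg]
    exact hT.symm
  have hMn : ∀ n, sq n f0 + P (u (sq (n + 1) f0) - E (R (u (sq (n + 1) f0))))
      - P (u (sq n f0) - E (R (u (sq n f0)))) = 0 := by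
    intro n
    have h3 := sq_M E u R P hE hu hR hP f n
    rw [← hm, hm0, ← hf0, ← hf1, hf1', map_zero] at h3
    simp only [map_neg] at h3
    rw [h3]
    simp only [map_sub]
    abel
  have hRv : ∀ w, R (u w - E (R (u w))) = 0 := by
    intro w
    rw [map_sub, hRE, sub_self]
  have hv : ∀ n, u (sq n f0) - E (R (u (sq n f0))) = 0 := by
    intro n
    cases n with
    | zero => exact hv0
    | succ n =>
      have h4 := congrArg u (hMn n)
      rw [map_sub, map_add, huP, huP, map_zero] at h4
      have h5 := congrArg (fun w => w - E (R w)) h4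
      simp only [map_sub, map_add, map_zero, hRE, sub_self] at h5
      simp only [sub_zero, add_zero] at h5
      rw [← h5]
      abel
  have hg : ∀ n, sq n f0 = 0 := by
    intro n
    have := hMn n
    rw [hv, hv, map_zero] at this
    simpa using this
  have hf00 : f0 = 0 := by
    refine sq_eq (fun n => ?_)
    rw [hg, map_zero]
  have hf11 : f1 = 0 := by rw [hf1', hf00, neg_zero]
  refine ext_br ?_ ?_
  · rw [← hf0, hf00]; rfl
  · rw [← hf1, hf11]; rfl

lemma T_surjective : Function.Surjective (T E u R P hE hu hR hP) := by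
  intro F
  obtain ⟨s, hs⟩ := solve ((brl_PU false).comp (hR.comp (hu.comp (sq_PU 0)))) (br false (R F))
  simp only [LinearMap.comp_apply, brl_apply] at hs
  set ms : X := D (P ∘ₗ E ∘ₗ R ∘ₗ u) (hP.comp (hE.comp (hR.comp hu))) (br false s)
    + D (P ∘ₗ u) (hP.comp hu) s with hms
  have hmsn : ∀ n, sq n ms = P (E (R (u (sq (n + 1) s)))) + P (u (sq n s)) := by
    intro n
    rw [hms, map_add, sq_D, sq_D, sq_br]
    rfl
  set G : X := br true (R F) - br true (R (u (sq 0 s))) - ms with hG
  set v : ℕ → C(L, ℝ) := fun n => Nat.casesOn n (F - E (R F))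
    (fun n => u (sq n G) - E (R (u (sq n G)))) with hv
  have hv0 : v 0 = F - E (R F) := rfl
  have hvs : ∀ n, v (n + 1) = u (sq n G) - E (R (u (sq n G))) := fun n => rfl
  have hRv : ∀ n, R (v n) = 0 := by
    intro n
    cases n with
    | zero => rw [hv0, map_sub, hRE, sub_self]
    | succ n => rw [hvs, map_sub, hRE, sub_self]
  have hv_lim : Tendsto v atTop (𝓝 0) := by
    rw [← tendsto_add_atTop_iff_nat 1]
    simp only [hvs]
    have h1 : Tendsto (fun n => u (sq n G)) atTop (𝓝 (ContinuousMap.const L (G zs))) := by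
      have := (hu.continuous.tendsto _).comp (sq_tendsto G)
      rw [hu.const] at this
      exact this
    have h2 : Tendsto (fun n => E (R (u (sq n G)))) atTop (𝓝 (ContinuousMap.const L (G zs))) := by
      have := ((hE.comp hR).continuous.tendsto _).comp h1
      rw [(hE.comp hR).const] at this
      exact this
    have := h1.sub h2
    rwa [sub_self] at this
  obtain ⟨f0, hf0, hf0z⟩ := glue (fun n => sq n G - P (v (n + 1) - v n)) (G zs) (by
    have h1 : Tendsto (fun n => P (v (n + 1) - v n)) atTop (𝓝 0) := by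
      have h2 : Tendsto (fun n => v (n + 1) - v n) atTop (𝓝 0) := by
        have := ((tendsto_add_atTop_iff_nat 1).mpr hv_lim).sub hv_lim
        rwa [sub_self] at this
      have := (hP.continuous.tendsto _).comp h2
      rw [map_zero] at this
      exact this
    have := (sq_tendsto G).sub h1
    rwa [sub_zero] at this)
  have hw : ∀ n, u (sq n f0) - E (R (u (sq n f0))) = v n := by
    intro n
    rw [hf0]
    simp only [map_sub, huP, hRv]
    simp only [map_zero, sub_zero]
    rw [hvs]
    abel
  refine ⟨pl f0 + pr (s - f0), ?_⟩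
  have hb0 : br false (pl f0 + pr (s - f0)) = f0 := by
    rw [br_add, br_false_pl, br_false_pr, add_zero]
  have hb1 : br true (pl f0 + pr (s - f0)) = s - f0 := by
    rw [br_add, br_true_pl, br_true_pr, zero_add]
  have hM : M E u R P hE hu hR hP (pl f0 + pr (s - f0)) = br true (R F) - br true (R (u (sq 0 s))) := by
    refine sq_eq (fun n => ?_)
    rw [sq_M, hb0, hb1]
    have e1 : sq n (br true (R F) - br true (R (u (sq 0 s)))) = sq n G + sq n ms := by
      rw [← map_add, hG]
      congr 1
      abel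
    rw [e1, hmsn]
    have e2 : sq n f0 + P (v (n + 1) - v n) = sq n G := by
      rw [hf0]; abel
    rw [← e2, ← hw n, ← hw (n + 1)]
    simp only [map_sub]
    abel
  rw [T_apply, hb0, hb1, hM]
  have e3 : R (u (sq 0 s)) + ((2 : ℝ) • pl s + pr (br true (R F) - br true (R (u (sq 0 s))))) = R F := by
    refine ext_br ?_ ?_
    · rw [br_add, br_add, br_smul, br_false_pl, br_false_pr, ← hs]
      abel
    · rw [br_add, br_add, br_smul, br_true_pl, br_true_pr]
      simp
  have e4 : f0 + (s - f0) = s := by abel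
  rw [e4]
  have e5 : u (sq 0 f0) + E (R (u (sq 0 (s - f0)))) = v 0 + E (R (u (sq 0 s))) := by
    rw [← hw 0]
    simp only [map_sub]
    abel
  rw [e5, add_assoc, ← map_add, e3, hv0]
  abel

end main

/-- **Main theorem**: there is a positive isomorphism of `C(2^ω)` onto `C(L)` as soon as each of
the two spaces is complemented in the other one by positive unital operators. -/
theorem exists_pos_iso {L : Type*} [TopologicalSpace L] [CompactSpace L]
    (E u : X →ₗ[ℝ] C(L, ℝ)) (R P : C(L, ℝ) →ₗ[ℝ] X)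
    (hE : PU E) (hu : PU u) (hR : PU R) (hP : PU P)
    (hRE : ∀ f, R (E f) = f) (huP : ∀ h, u (P h) = h) :
    ∃ T : X ≃L[ℝ] C(L, ℝ), ∀ f : X, (∀ x, 0 ≤ f x) → ∀ y, 0 ≤ (T f) y :=
  exists_equiv (T E u R P hE hu hR hP) (T_nonneg E u R P hE hu hR hP)
    ⟨T_injective E u R P hE hu hR hP hRE huP, T_surjective E u R P hE hu hR hP hRE huP⟩

/-- composition with a continuous map as a linear map -/
def cmp {S W : Type*} [TopologicalSpace S] [TopologicalSpace W] (g : C(S, W)) :
    C(W, ℝ) →ₗ[ℝ] C(S, ℝ) where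
  toFun f := f.comp g
  map_add' _ _ := rfl
  map_smul' _ _ := rfl

lemma cmp_PU {S W : Type*} [TopologicalSpace S] [TopologicalSpace W] (g : C(S, W)) :
    PU (cmp g) := ⟨fun _ hf _ => hf _, rfl⟩

/-- There is a positive isomorphism of `C(2^ω)` onto `C([0,1])`. -/
theorem pos_iso_unitInterval :
    ∃ T : C(ℕ → Bool, ℝ) ≃L[ℝ] C(unitInterval, ℝ),
      ∀ f : C(ℕ → Bool, ℝ), (∀ x, 0 ≤ f x) → ∀ y, 0 ≤ (T f) y := by
  refine exists_pos_iso Eop uop (cmp emb) (cmp sur) ⟨U_nonneg 3, U_one 3⟩
    ⟨U_nonneg (3 / 2), U_one (3 / 2)⟩ (cmp_PU emb) (cmp_PU sur) (fun f => ?_) (fun h => ?_)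
  · ext x
    exact Eop_emb f x
  · exact uop_sur h

end Pool.Agent.H47
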